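import Pool.Agent.Run7.h282.PM.Iface

set_option autoImplicit false

open Finset

namespace Run7.h477.PM

open Run7.h282.PM

section g3
variable {F : Type} [Field F] {κ : Type} [DecidableEq κ]

lemma prodv_mulv (hB : S_BASE) (m : ℕ) (C : Fin m → κ → F) (x : κ → F) (y : Finset κ → F) :
    prodv m C (mulv x y) = mulv x (prodv m C y) := by
  induction m generalizing y with
  | zero => rfl
  | succ m ih =>
    show prodv m (fun i => C i.succ) (mulv (C 0) (mulv x y)) =
      mulv x (prodv m (fun i => C i.succ) (mulv (C 0) y))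
    rw [(hB F κ).1, ih]

lemma prodv_hom (hB : S_BASE) (m d : ℕ) (C : Fin m → κ → F) (y : Finset κ → F) (hy : Hom d y) :
    Hom (d + m) (prodv m C y) := by
  induction m generalizing y d with
  | zero => exact hy
  | succ m ih =>
    show Hom (d + (m + 1)) (prodv m (fun i => C i.succ) (mulv (C 0) y))
    have := ih (d + 1) (fun i => C i.succ) (mulv (C 0) y) ((hB F κ).2.1 d (C 0) y hy)
    rwa [show d + 1 + m = d + (m + 1) by ring] at this

lemma prodv_cons (m : ℕ) (C : Fin m → κ → F) (x : κ → F) (y : Finset κ → F) :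
    prodv (m + 1) (Fin.cons x C) y = prodv m C (mulv x y) := rfl

lemma mulv_zero (x : κ → F) : mulv x (0 : Finset κ → F) = 0 := by
  funext S
  simp [mulv]

/-- the value at the top of a product with three non-zero coordinates -/
lemma mulv_three (m : ℕ) (t : Fin (m + 3) → F) (ht : ∀ j : Fin (m + 3), 3 ≤ j.val → t j = 0)
    (y : Finset (Fin (m + 3)) → F) :
    mulv t y univ = t 0 * y (univ.erase 0) + t 1 * y (univ.erase 1) + t 2 * y (univ.erase 2) := by
  unfold mulv
  rw [Fin.sum_univ_succ, Fin.sum_univ_succ, Fin.sum_univ_succ, Finset.sum_eq_zero]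
  · have h1 : (Fin.succ (0 : Fin (m + 2))) = (1 : Fin (m + 3)) := rfl
    have h2 : (Fin.succ (Fin.succ (0 : Fin (m + 1)))) = (2 : Fin (m + 3)) := rfl
    rw [h1, h2]
    ring
  · intro i _
    rw [ht _ (by simp [Fin.val_succ]), zero_mul]

/-- sum over functions on `Fin (k+1)` -/
lemma sum_cons {V M : Type} [Fintype V] [AddCommMonoid M] (k : ℕ) (f : (Fin (k + 1) → V) → M) :
    ∑ D : Fin (k + 1) → V, f D = ∑ u : V, ∑ E : Fin k → V, f (Fin.cons u E) := by
  rw [← Fintype.sum_prod_type']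
  exact (Fintype.sum_equiv (Fin.consEquiv (fun _ => V)) _ _ (fun _ => rfl)).symm

/-- sum over matrices, by the three first columns -/
lemma sum_cols {F M : Type} [Fintype F] [AddCommMonoid M] (m N : ℕ)
    (f : (Fin N → Fin (m + 3) → F) → M) :
    ∑ D : Fin N → Fin (m + 3) → F, f D =
      ∑ E : Fin m → Fin N → F, ∑ u0 : Fin N → F, ∑ u1 : Fin N → F, ∑ u2 : Fin N → F,
        f (fun i => Fin.cons (u0 i) (Fin.cons (u1 i) (Fin.cons (u2 i) (fun l => E l i)))) := by
  have h1 : ∑ D : Fin N → Fin (m + 3) → F, f D =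
      ∑ D : Fin (m + 3) → Fin N → F, f (fun i j => D j i) :=
    Fintype.sum_equiv (Equiv.piComm (fun _ _ => F)) _ _ (fun _ => rfl)
  rw [h1, sum_cons]
  simp_rw [sum_cons]
  have h2 : ∀ (u0 u1 u2 : Fin N → F) (E : Fin m → Fin N → F),
      (fun (i : Fin N) (j : Fin (m + 3)) =>
        (Fin.cons u0 (Fin.cons u1 (Fin.cons u2 E : Fin (m + 1) → Fin N → F) :
          Fin (m + 2) → Fin N → F) : Fin (m + 3) → Fin N → F) j i) =
      (fun i => Fin.cons (u0 i) (Fin.cons (u1 i) (Fin.cons (u2 i) (fun l => E l i)))) := by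
    intro u0 u1 u2 E
    funext i j
    refine Fin.cases rfl (fun j => ?_) j
    refine Fin.cases rfl (fun j => ?_) j
    refine Fin.cases rfl (fun j => ?_) j
    rfl
  simp_rw [h2]
  calc _ = ∑ u0 : Fin N → F, ∑ u1 : Fin N → F, ∑ E : Fin m → Fin N → F, ∑ u2 : Fin N → F,
        f (fun i => Fin.cons (u0 i) (Fin.cons (u1 i) (Fin.cons (u2 i) (fun l => E l i)))) :=
        Finset.sum_congr rfl fun _ _ => Finset.sum_congr rfl fun _ _ => Finset.sum_comm
    _ = ∑ u0 : Fin N → F, ∑ E : Fin m → Fin N → F, ∑ u1 : Fin N → F, ∑ u2 : Fin N → F,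
        f (fun i => Fin.cons (u0 i) (Fin.cons (u1 i) (Fin.cons (u2 i) (fun l => E l i)))) :=
        Finset.sum_congr rfl fun _ _ => Finset.sum_comm
    _ = _ := Finset.sum_comm

/-- an element of degree `N` in `N + 1` variables is determined by the values of its multiples -/
lemma eq_zero_of_mulv (N : ℕ) (y : Finset (Fin (N + 1)) → F) (hy : Hom N y)
    (h : ∀ w : Fin (N + 1) → F, mulv w y univ = 0) : y = 0 := by
  funext S
  by_contra hS
  have hc : S.card = N := hy S hS
  have : (Sᶜ : Finset (Fin (N + 1))).card = 1 := by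
    rw [Finset.card_compl, hc, Fintype.card_fin]; omega
  obtain ⟨j, hj⟩ := Finset.card_eq_one.1 this
  have hS' : S = univ.erase j := by
    rw [← compl_compl S, hj]
    ext i
    simp
  have h1 := h (Pi.single j 1)
  unfold mulv at h1
  rw [Finset.sum_eq_single j] at h1
  · rw [Pi.single_eq_same, one_mul, ← hS'] at h1
    exact hS h1
  · intro i _ hij
    rw [Pi.single_eq_of_ne hij, zero_mul]
  · intro h2
    exact absurd (Finset.mem_univ _) h2

/-- the bilinear form of `Y` -/
noncomputable def bil (hB : S_BASE) {N : ℕ} (Y : Finset (Fin N) → F) :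
    (Fin N → F) →ₗ[F] (Fin N → F) →ₗ[F] F :=
  LinearMap.mk₂ F (fun u w => mulv u (mulv w Y) univ)
    (by
      intro a b c
      show mulv (a + b) (mulv c Y) univ = mulv a (mulv c Y) univ + mulv b (mulv c Y) univ
      rw [(hB F (Fin N)).2.2.2.2.1]; rfl)
    (by
      intro a b c
      show mulv (a • b) (mulv c Y) univ = a • mulv b (mulv c Y) univ
      rw [(hB F (Fin N)).2.2.2.2.2.1]; rfl)
    (by
      intro a b c
      show mulv a (mulv (b + c) Y) univ = mulv a (mulv b Y) univ + mulv a (mulv c Y) univ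
      rw [(hB F (Fin N)).2.2.2.2.1, (hB F (Fin N)).2.2.2.2.2.2.1]; rfl)
    (by
      intro a b c
      show mulv b (mulv (a • c) Y) univ = a • mulv b (mulv c Y) univ
      rw [(hB F (Fin N)).2.2.2.2.2.1, (hB F (Fin N)).2.2.2.2.2.2.2]; rfl)

lemma bil_apply (hB : S_BASE) {N : ℕ} (Y : Finset (Fin N) → F) (u w : Fin N → F) :
    bil hB Y u w = mulv u (mulv w Y) univ := rfl

lemma bil_comm (hB : S_BASE) {N : ℕ} (Y : Finset (Fin N) → F) (u w : Fin N → F) :
    bil hB Y u w = bil hB Y w u := by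
  rw [bil_apply, bil_apply, (hB F (Fin N)).1]

lemma bil_ker (hB : S_BASE) {N : ℕ} (Y : Finset (Fin (N + 2)) → F) (hY : Hom N Y)
    (u : Fin (N + 2) → F) : bil hB Y u = 0 ↔ mulv u Y = 0 := by
  constructor
  · intro h
    apply eq_zero_of_mulv (N + 1) (mulv u Y) ((hB F (Fin (N + 2))).2.1 N u Y hY)
    intro w
    have h1 : bil hB Y u w = 0 := by rw [h]; rfl
    rw [bil_comm, bil_apply] at h1
    exact h1
  · intro h
    apply LinearMap.ext
    intro w
    rw [bil_comm, bil_apply, h]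
    rw [mulv_zero]; rfl

lemma card_ker (hB : S_BASE) [Fintype F] {N : ℕ} (Y : Finset (Fin (N + 2)) → F) (hY : Hom N Y) :
    (Nat.card {u : Fin (N + 2) → F // bil hB Y u = 0} : ℝ) =
      q F ^ (N + 2) * A0 F (Fin (N + 2)) zf Y := by
  classical
  have h1 : (Nat.card {u : Fin (N + 2) → F // bil hB Y u = 0} : ℝ) =
      ∑ x : Fin (N + 2) → F, zf (mulv x Y) := by
    have hz : ∀ x : Fin (N + 2) → F, zf (mulv x Y) = if mulv x Y = 0 then (1 : ℝ) else 0 := by
      intro x; unfold zf; split_ifs <;> rfl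
    rw [Nat.card_congr (Equiv.subtypeEquivRight (fun u => bil_ker hB Y hY u)),
      Nat.card_eq_fintype_card, Fintype.card_subtype, Finset.sum_congr rfl (fun x _ => hz x),
      ← Finset.sum_filter, Finset.sum_const, nsmul_eq_mul, mul_one]
  rw [h1]
  unfold A0 Aop q
  rw [Fintype.card_fin, mul_div_cancel₀]
  have : (0 : ℝ) < (Fintype.card F : ℝ) := by exact_mod_cast Fintype.card_pos
  positivity

/-- the bound for the sum over the three first columns -/
lemma triple_bound (hB : S_BASE) (hK : S_RKB) (hQ : S_QUAD) [Fintype F] (h2 : (2 : F) ≠ 0)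
    (ψ : AddChar F ℂ) (hψ : ψ.IsPrimitive) {m : ℕ} (Y : Finset (Fin (m + 2)) → F) (hY : Hom m Y)
    (c0 c1 c2 : F) (h0 : c0 ≠ 0) (h1 : c1 ≠ 0) (h2' : c2 ≠ 0) :
    ‖∑ u0 : Fin (m + 2) → F, ∑ u1 : Fin (m + 2) → F, ∑ u2 : Fin (m + 2) → F,
        ψ (c0 * mulv u1 (mulv u2 Y) univ + c1 * mulv u0 (mulv u2 Y) univ +
          c2 * mulv u0 (mulv u1 Y) univ)‖ ≤
      (q F ^ (m + 2)) ^ 3 * (zf Y + (A0 F (Fin (m + 2)) zf Y - zf Y) / q F) := by
  classical
  have hq : (0 : ℝ) < q F := by unfold q; exact_mod_cast Fintype.card_pos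
  by_cases hY0 : Y = 0
  · subst hY0
    have hz : zf (0 : Finset (Fin (m + 2)) → F) = 1 := by unfold zf; rw [if_pos rfl]
    have hA : A0 F (Fin (m + 2)) zf (0 : Finset (Fin (m + 2)) → F) = 1 := by
      unfold A0 Aop
      simp_rw [mulv_zero, hz]
      rw [Finset.sum_const, Finset.card_univ, Fintype.card_pi, Finset.prod_const, Finset.card_univ]
      rw [nsmul_eq_mul, mul_one, Nat.cast_pow, div_self]
      unfold q at hq
      positivity
    rw [hz, hA]
    refine (norm_sum_le _ _).trans ?_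
    have hle : ∀ u0 : Fin (m + 2) → F, ‖∑ u1 : Fin (m + 2) → F, ∑ u2 : Fin (m + 2) → F,
        ψ (c0 * mulv u1 (mulv u2 (0 : Finset (Fin (m + 2)) → F)) univ +
          c1 * mulv u0 (mulv u2 (0 : Finset (Fin (m + 2)) → F)) univ +
          c2 * mulv u0 (mulv u1 (0 : Finset (Fin (m + 2)) → F)) univ)‖ ≤
        (q F ^ (m + 2)) ^ 2 := by
      intro u0
      simp only [mulv_zero, Pi.zero_apply, mul_zero, add_zero, AddChar.map_zero_eq_one,
        Finset.sum_const, Finset.card_univ, Fintype.card_pi, Finset.prod_const, Fintype.card_fin]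
      unfold q
      simp only [nsmul_eq_mul, mul_one, norm_mul, Nat.cast_pow, norm_pow, Complex.norm_natCast]
      ring_nf
      exact le_refl _
    refine (Finset.sum_le_sum (fun u0 _ => hle u0)).trans ?_
    rw [Finset.sum_const, Finset.card_univ, Fintype.card_pi, Finset.prod_const, Finset.card_univ,
      Fintype.card_fin, nsmul_eq_mul, Nat.cast_pow]
    unfold q
    apply le_of_eq
    ring
  · have hz : zf Y = 0 := by unfold zf; rw [if_neg hY0]
    have hrk := hK F (Fin (m + 2)) m Y hY hY0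
    rw [Fintype.card_fin] at hrk
    have hcard := card_ker hB Y hY
    have hle : (Nat.card {u : Fin (m + 2) → F // bil hB Y u = 0} : ℝ) * q F ^ 2 ≤
        q F ^ (m + 2) := by
      rw [hcard]
      have h3 : q F ^ (m + 2) * A0 F (Fin (m + 2)) zf Y ≤ q F ^ m := by
        have := mul_le_mul_of_nonneg_left hrk (by positivity : 0 ≤ q F ^ (m + 2))
        rwa [mul_div_cancel₀ _ (by positivity : q F ^ (m + 2) ≠ 0)] at this
      calc _ ≤ q F ^ m * q F ^ 2 := by gcongr
        _ = q F ^ (m + 2) := by ring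
    have := hQ F h2 ψ hψ (m + 2) (bil hB Y) (bil_comm hB Y) hle c0 c1 c2 h0 h1 h2'
    simp only [bil_apply] at this
    refine this.trans ?_
    have hcard' : (Nat.card {u : Fin (m + 2) → F // bil hB Y u = 0} : ℝ) =
      q F ^ (m + 2) * A0 F (Fin (m + 2)) zf Y := hcard
    rw [hcard', hz]
    apply le_of_eq
    ring

end g3

theorem t_G3 (hB : S_BASE) (hK : S_RKB) (hE : S_EXP) (hC : S_COL) (hQ : S_QUAD) (hX : S_CHR) :
    S_G3 := by
  intro F _ _ h2 m t ht0 ht1 ht2 ht
  classical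
  obtain ⟨ψ, hψ, hψ2⟩ := hX F
  have hq : (0 : ℝ) < q F := by unfold q; exact_mod_cast Fintype.card_pos
  set N := m + 2 with hN
  -- the value of the left side as a complex number
  have hL : (((A0 F (Fin (m + 3)))^[m + 1] zf (mulv t (one F (Fin (m + 3)))) : ℝ) : ℂ) =
      (∑ D : Fin (m + 2) → Fin (m + 3) → F,
        ψ (mulv t (prodv (m + 2) D (one F (Fin (m + 3)))) univ)) /
        (((q F ^ (m + 3)) ^ (m + 2) : ℝ) : ℂ) := by
    rw [hE F (Fin (m + 3)) (m + 1) zf (mulv t (one F (Fin (m + 3)))), Fintype.card_fin]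
    push_cast
    rw [sum_cons (m + 1), Finset.sum_comm]
    have h1 : ∀ C : Fin (m + 1) → Fin (m + 3) → F,
        ((zf (prodv (m + 1) C (mulv t (one F (Fin (m + 3))))) : ℝ) : ℂ) =
        (∑ x : Fin (m + 3) → F,
          ψ (mulv t (prodv (m + 2) (Fin.cons x C) (one F (Fin (m + 3)))) univ)) /
          ((q F ^ (m + 3) : ℝ) : ℂ) := by
      intro C
      have hhom : Hom (m + 2) (prodv (m + 1) C (mulv t (one F (Fin (m + 3))))) := by
        have := prodv_hom hB (m + 1) 1 C (mulv t (one F (Fin (m + 3))))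
          ((hB F (Fin (m + 3))).2.1 0 t _ (hB F (Fin (m + 3))).2.2.1)
        rwa [show 1 + (m + 1) = m + 2 by ring] at this
      rw [hψ2 (m + 2) _ hhom]
      congr 1
      apply Finset.sum_congr rfl
      intro x _
      rw [prodv_cons, ← prodv_mulv hB, ← prodv_mulv hB, (hB F (Fin (m + 3))).1]
    rw [Finset.sum_congr rfl (fun C _ => h1 C), ← Finset.sum_div, div_div]
    congr 1
    push_cast
    ring
  -- the sum by columns
  have hD : ∑ D : Fin (m + 2) → Fin (m + 3) → F,
        ψ (mulv t (prodv (m + 2) D (one F (Fin (m + 3)))) univ) =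
      ∑ E : Fin m → Fin (m + 2) → F, ∑ u0 : Fin (m + 2) → F, ∑ u1 : Fin (m + 2) → F,
        ∑ u2 : Fin (m + 2) → F,
        ψ (t 0 * mulv u1 (mulv u2 (prodv m E (one F (Fin (m + 2))))) univ +
          t 1 * mulv u0 (mulv u2 (prodv m E (one F (Fin (m + 2))))) univ +
          t 2 * mulv u0 (mulv u1 (prodv m E (one F (Fin (m + 2))))) univ) := by
    rw [sum_cols]
    apply Finset.sum_congr rfl; intro E _
    apply Finset.sum_congr rfl; intro u0 _
    apply Finset.sum_congr rfl; intro u1 _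
    apply Finset.sum_congr rfl; intro u2 _
    congr 1
    rw [mulv_three m t ht]
    obtain ⟨e0, e1, e2⟩ := hC F m
      (fun i => Fin.cons (u0 i) (Fin.cons (u1 i) (Fin.cons (u2 i) (fun l => E l i))))
    rw [e0, e1, e2]
    rfl
  -- the bound for every `E`
  have hbound : ‖∑ D : Fin (m + 2) → Fin (m + 3) → F,
        ψ (mulv t (prodv (m + 2) D (one F (Fin (m + 3)))) univ)‖ ≤
      ∑ E : Fin m → Fin (m + 2) → F, (q F ^ (m + 2)) ^ 3 *
        (zf (prodv m E (one F (Fin (m + 2)))) +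
          (A0 F (Fin (m + 2)) zf (prodv m E (one F (Fin (m + 2)))) -
            zf (prodv m E (one F (Fin (m + 2))))) / q F) := by
    rw [hD]
    refine (norm_sum_le _ _).trans (Finset.sum_le_sum (fun E _ => ?_))
    apply triple_bound hB hK hQ h2 ψ hψ _ _ _ _ _ ht0 ht1 ht2
    have := prodv_hom hB m 0 E (one F (Fin (m + 2))) (hB F (Fin (m + 2))).2.2.1
    rwa [zero_add] at this
  -- the averages over `E`
  have hp0 : p F m (m + 2) = (∑ E : Fin m → Fin (m + 2) → F,
      zf (prodv m E (one F (Fin (m + 2))))) / (q F ^ (m + 2)) ^ m := by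
    unfold p
    rw [hE F (Fin (m + 2)) m zf, Fintype.card_fin]
  have hp1 : p F (m + 1) (m + 2) = (∑ E : Fin m → Fin (m + 2) → F,
      A0 F (Fin (m + 2)) zf (prodv m E (one F (Fin (m + 2))))) / (q F ^ (m + 2)) ^ m := by
    unfold p
    rw [Function.iterate_succ_apply, hE F (Fin (m + 2)) m (A0 F (Fin (m + 2)) zf),
      Fintype.card_fin]
  have hsum : (∑ E : Fin m → Fin (m + 2) → F, (q F ^ (m + 2)) ^ 3 *
        (zf (prodv m E (one F (Fin (m + 2)))) +
          (A0 F (Fin (m + 2)) zf (prodv m E (one F (Fin (m + 2)))) -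
            zf (prodv m E (one F (Fin (m + 2))))) / q F)) =
      (q F ^ (m + 3)) ^ (m + 2) *
        (p F m (m + 2) + (p F (m + 1) (m + 2) - p F m (m + 2)) / q F) := by
    rw [← Finset.mul_sum, Finset.sum_add_distrib, ← Finset.sum_div, Finset.sum_sub_distrib,
      hp0, hp1]
    have e1 : (q F ^ (m + 3)) ^ (m + 2) = (q F ^ (m + 2)) ^ 3 * (q F ^ (m + 2)) ^ m := by
      rw [← pow_mul, ← pow_add, ← pow_mul]; congr 1; ring
    rw [e1]
    field_simp
  have hLn : (A0 F (Fin (m + 3)))^[m + 1] zf (mulv t (one F (Fin (m + 3)))) ≤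
      ‖(((A0 F (Fin (m + 3)))^[m + 1] zf (mulv t (one F (Fin (m + 3)))) : ℝ) : ℂ)‖ := by
    rw [Complex.norm_real]; exact le_abs_self _
  refine hLn.trans ?_
  rw [hL, norm_div, Complex.norm_real, Real.norm_of_nonneg (by positivity), div_le_iff₀ (by positivity)]
  refine hbound.trans ?_
  rw [hsum]
  apply le_of_eq
  ring

end Run7.h477.PM
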