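import Pool.Agent.Run7.h282.PM.Iface

set_option autoImplicit false

open Finset

namespace Run7.h477.PM

open Run7.h282.PM

section ops
variable {F : Type} [Field F] [Fintype F] {κ : Type} [Fintype κ] [DecidableEq κ]

lemma Aop_mono {ι : Type} [Fintype ι] [DecidableEq ι] (φ : (ι → F) → (κ → F))
    {f g : (Finset κ → F) → ℝ} (h : ∀ y, f y ≤ g y) (y : Finset κ → F) :
    Aop φ f y ≤ Aop φ g y := by
  unfold Aop
  gcongr with x hx
  exact h _

lemma A0_iter_mono (m : ℕ) {f g : (Finset κ → F) → ℝ} (h : ∀ y, f y ≤ g y) (y : Finset κ → F) :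
    (A0 F κ)^[m] f y ≤ (A0 F κ)^[m] g y := by
  induction m generalizing f g y with
  | zero => simpa using h y
  | succ m ih =>
    rw [Function.iterate_succ_apply, Function.iterate_succ_apply]
    exact ih (fun z => Aop_mono _ h z) y

lemma A0_comm (hB : S_BASE) (x : κ → F) (f : (Finset κ → F) → ℝ) :
    A0 F κ (fun z => f (mulv x z)) = fun z => A0 F κ f (mulv x z) := by
  funext z
  unfold A0 Aop
  congr 1
  apply Finset.sum_congr rfl
  intro x' _
  show f (mulv x (mulv x' z)) = f (mulv x' (mulv x z))
  rw [(hB F κ).1 x x' z]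

lemma A0_iter_comm (hB : S_BASE) (m : ℕ) (x : κ → F) (f : (Finset κ → F) → ℝ) :
    (A0 F κ)^[m] (fun z => f (mulv x z)) = fun z => (A0 F κ)^[m] f (mulv x z) := by
  induction m generalizing f with
  | zero => rfl
  | succ m ih =>
    rw [Function.iterate_succ_apply, A0_comm hB, ih, Function.iterate_succ_apply]

lemma A0_sum {ι : Type} (s : Finset ι) (f : ι → (Finset κ → F) → ℝ) (c : ℝ) :
    A0 F κ (fun z => (∑ t ∈ s, f t z) / c) = fun z => (∑ t ∈ s, A0 F κ (f t) z) / c := by
  funext z
  unfold A0 Aop
  rw [← Finset.sum_div, ← Finset.sum_div, Finset.sum_comm]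
  ring

lemma A0_iter_sum {ι : Type} (m : ℕ) (s : Finset ι) (f : ι → (Finset κ → F) → ℝ) (c : ℝ) :
    (A0 F κ)^[m] (fun z => (∑ t ∈ s, f t z) / c) =
      fun z => (∑ t ∈ s, (A0 F κ)^[m] (f t) z) / c := by
  induction m generalizing f with
  | zero => rfl
  | succ m ih =>
    rw [Function.iterate_succ_apply, A0_sum, ih]
    funext z
    simp only [Function.iterate_succ_apply]

lemma q_pos : 0 < q F := by
  unfold q
  exact_mod_cast Fintype.card_pos

lemma A0_one : A0 F κ (fun _ => (1 : ℝ)) = fun _ => 1 := by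
  funext z
  unfold A0 Aop
  simp only [Finset.sum_const, Finset.card_univ, Fintype.card_pi, Finset.prod_const, nsmul_eq_mul,
    mul_one]
  rw [Nat.cast_pow]
  apply div_self
  have := (q_pos (F := F)).ne'
  unfold q at this
  exact pow_ne_zero _ this

lemma A0_iter_one (m : ℕ) : (A0 F κ)^[m] (fun _ => (1 : ℝ)) = fun _ => 1 := by
  induction m with
  | zero => rfl
  | succ m ih => rw [Function.iterate_succ_apply, A0_one, ih]

lemma zf_le_one (y : Finset κ → F) : zf y ≤ 1 := by
  unfold zf; split_ifs <;> norm_num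

lemma A0_iter_zf_le_one (m : ℕ) (y : Finset κ → F) : (A0 F κ)^[m] zf y ≤ 1 := by
  have := A0_iter_mono (F := F) m (f := zf) (g := fun _ => 1) (fun y => zf_le_one y) y
  rwa [A0_iter_one] at this

end ops

/-- number of functions with exactly three non-zero values -/
lemma card_three (F : Type) [Field F] [Fintype F] [DecidableEq F] (ι : Type) [Fintype ι]
    [DecidableEq ι] :
    ((univ : Finset (ι → F)).filter
      (fun t => (univ.filter (fun i => t i ≠ 0)).card = 3)).card =
      (Fintype.card ι).choose 3 * (Fintype.card F - 1) ^ 3 := by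
  classical
  have hmaps : ∀ t ∈ ((univ : Finset (ι → F)).filter
      (fun t => (univ.filter (fun i => t i ≠ 0)).card = 3)),
      (univ.filter (fun i => t i ≠ 0)) ∈ Finset.powersetCard 3 (univ : Finset ι) := by
    intro t ht
    rw [Finset.mem_filter] at ht
    rw [Finset.mem_powersetCard]
    exact ⟨Finset.subset_univ _, ht.2⟩
  rw [Finset.card_eq_sum_card_fiberwise hmaps]
  have hfib : ∀ U ∈ Finset.powersetCard 3 (univ : Finset ι),
      (((univ : Finset (ι → F)).filter
        (fun t => (univ.filter (fun i => t i ≠ 0)).card = 3)).filter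
        (fun t => univ.filter (fun i => t i ≠ 0) = U)).card = (Fintype.card F - 1) ^ 3 := by
    intro U hU
    rw [Finset.mem_powersetCard] at hU
    have heq : (((univ : Finset (ι → F)).filter
        (fun t => (univ.filter (fun i => t i ≠ 0)).card = 3)).filter
        (fun t => univ.filter (fun i => t i ≠ 0) = U)) =
        Fintype.piFinset (fun i => if i ∈ U then (univ : Finset F).erase 0 else {0}) := by
      ext t
      simp only [Finset.mem_filter, Finset.mem_univ, true_and, Fintype.mem_piFinset]
      constructor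
      · rintro ⟨_, h2⟩ i
        have h3 : t i ≠ 0 ↔ i ∈ U := by rw [← h2]; simp
        by_cases hi : i ∈ U
        · rw [if_pos hi]; simp [h3.2 hi]
        · rw [if_neg hi]
          have : t i = 0 := by
            by_contra hne
            exact hi (h3.1 hne)
          simp [this]
      · intro h
        have h2 : univ.filter (fun i => t i ≠ 0) = U := by
          ext i
          simp only [Finset.mem_filter, Finset.mem_univ, true_and]
          have := h i
          by_cases hi : i ∈ U
          · rw [if_pos hi] at this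
            simp only [Finset.mem_erase, Finset.mem_univ, and_true] at this
            simp [hi, this]
          · rw [if_neg hi] at this
            simp only [Finset.mem_singleton] at this
            simp [hi, this]
        exact ⟨by rw [h2]; exact hU.2, h2⟩
    rw [heq, Fintype.card_piFinset]
    have : ∀ i, (if i ∈ U then (univ : Finset F).erase 0 else {0}).card =
        if i ∈ U then (Fintype.card F - 1) else 1 := by
      intro i
      split_ifs with h
      · rw [Finset.card_erase_of_mem (Finset.mem_univ _), Finset.card_univ]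
      · simp
    rw [Finset.prod_congr rfl (fun i _ => this i), Finset.prod_ite]
    simp only [Finset.prod_const, one_pow, mul_one]
    have h5 : univ.filter (fun i => i ∈ U) = U := by ext; simp
    rw [h5, hU.2]
  rw [Finset.sum_congr rfl hfib]
  simp [Finset.card_powersetCard]

lemma val_two' {n : ℕ} : ((2 : Fin (n + 3)) : ℕ) = 2 := by
  show 2 % (n + 3) = 2
  exact Nat.mod_eq_of_lt (by omega)

/-- moving three coordinates to the positions `0, 1, 2` -/
lemma exists_perm {n : ℕ} (a b c : Fin (n + 3)) (hab : a ≠ b) (hac : a ≠ c) (hbc : b ≠ c) :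
    ∃ e : Fin (n + 3) ≃ Fin (n + 3), e.symm 0 = a ∧ e.symm 1 = b ∧ e.symm 2 = c := by
  have h01 : (0 : Fin (n + 3)) ≠ 1 := by
    intro h; have := congrArg Fin.val h; simp at this
  have h02 : (0 : Fin (n + 3)) ≠ 2 := by
    intro h; have := congrArg Fin.val h
    rw [val_two'] at this; simp at this
  have h12 : (1 : Fin (n + 3)) ≠ 2 := by
    intro h; have := congrArg Fin.val h
    rw [val_two'] at this; simp at this
  set s1 : Equiv.Perm (Fin (n + 3)) := Equiv.swap 0 a with hs1
  set b' := s1.symm b with hb'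
  have hb0 : b' ≠ 0 := by
    intro h
    apply hab
    have : b = s1 0 := by rw [← h, hb', Equiv.apply_symm_apply]
    rw [this, hs1, Equiv.swap_apply_left]
  set s2 : Equiv.Perm (Fin (n + 3)) := Equiv.swap 1 b' with hs2
  have hs20 : s2 0 = 0 := Equiv.swap_apply_of_ne_of_ne h01 hb0.symm
  set c' := s2.symm (s1.symm c) with hc'
  have hcc : s1 (s2 c') = c := by rw [hc', Equiv.apply_symm_apply, Equiv.apply_symm_apply]
  have hA0 : s1 (s2 0) = a := by rw [hs20, hs1, Equiv.swap_apply_left]
  have hA1 : s1 (s2 1) = b := by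
    rw [hs2, Equiv.swap_apply_left, hb', Equiv.apply_symm_apply]
  have hc0 : c' ≠ 0 := by
    intro h; apply hac; rw [← hcc, h, hA0]
  have hc1 : c' ≠ 1 := by
    intro h; apply hbc; rw [← hcc, h, hA1]
  set s3 : Equiv.Perm (Fin (n + 3)) := Equiv.swap 2 c' with hs3
  refine ⟨(s3.trans (s2.trans s1)).symm, ?_, ?_, ?_⟩
  · rw [Equiv.symm_symm, Equiv.trans_apply, Equiv.trans_apply, hs3,
      Equiv.swap_apply_of_ne_of_ne h02 hc0.symm, hA0]
  · rw [Equiv.symm_symm, Equiv.trans_apply, Equiv.trans_apply, hs3,
      Equiv.swap_apply_of_ne_of_ne h12 hc1.symm, hA1]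
  · rw [Equiv.symm_symm, Equiv.trans_apply, Equiv.trans_apply, hs3,
      Equiv.swap_apply_left, hcc]

lemma mulv_perm {F : Type} [Field F] {κ κ' : Type} [DecidableEq κ] [DecidableEq κ'] (e : κ ≃ κ')
    (x : κ → F) :
    (fun T : Finset κ' => mulv x (one F κ) (T.map e.symm.toEmbedding)) =
      mulv (x ∘ e.symm) (one F κ') := by
  funext T
  unfold mulv one
  rw [Finset.sum_map]
  apply Finset.sum_congr rfl
  intro i hi
  have h1 : (T.map e.symm.toEmbedding).erase (e.symm.toEmbedding i) =
      (T.erase i).map e.symm.toEmbedding := by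
    rw [Finset.map_erase]
  rw [h1]
  simp only [Finset.map_eq_empty]
  rfl

/-- the case of three non-zero coordinates in any position -/
lemma three (hR : S_REIDX) (hG : S_G3) (F : Type) [Field F] [Fintype F] (h2 : (2 : F) ≠ 0) (m : ℕ)
    (x : Fin (m + 3) → F) (a b c : Fin (m + 3)) (hab : a ≠ b) (hac : a ≠ c) (hbc : b ≠ c)
    (ha : x a ≠ 0) (hb : x b ≠ 0) (hc : x c ≠ 0)
    (h0 : ∀ j, j ≠ a → j ≠ b → j ≠ c → x j = 0) :
    (A0 F (Fin (m + 3)))^[m + 1] zf (mulv x (one F (Fin (m + 3)))) ≤
      p F m (m + 2) + (p F (m + 1) (m + 2) - p F m (m + 2)) / q F := by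
  obtain ⟨e, e0, e1, e2⟩ := exists_perm a b c hab hac hbc
  have h := (hR F (Fin (m + 3)) (Fin (m + 3)) e (m + 1)).1 (mulv x (one F (Fin (m + 3))))
  rw [h, mulv_perm]
  apply hG F h2 m (x ∘ e.symm)
  · simpa [e0] using ha
  · simpa [e1] using hb
  · simpa [e2] using hc
  · intro j hj
    have hj0 : j ≠ 0 := by intro h; rw [h] at hj; simp at hj
    have hj1 : j ≠ 1 := by intro h; rw [h] at hj; simp at hj
    have hj2 : j ≠ 2 := by intro h; rw [h, val_two'] at hj; omega
    apply h0
    · intro h; apply hj0; apply e.symm.injective; rw [h, e0]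
    · intro h; apply hj1; apply e.symm.injective; rw [h, e1]
    · intro h; apply hj2; apply e.symm.injective; rw [h, e2]

lemma mulv_one_ne (F : Type) [Field F] (κ : Type) [DecidableEq κ] (x : κ → F) (j : κ)
    (h : x j ≠ 0) : mulv x (one F κ) ≠ 0 := by
  intro h0
  have := congrFun h0 {j}
  simp [mulv, one] at this
  exact h this

theorem t_STAR (hB : S_BASE) (hI : S_IDX) (hR : S_REIDX) (hL : S_LEML) (hG : S_G3) (hP : S_PB) :
    S_STAR := by
  classical
  intro F _ _ h2 m k hk w
  set κ := Fin (m + 3) with hκ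
  set S : Finset κ := univ.filter (fun j => j.val < k + 1) with hS
  have hScard : S.card = k + 1 := by
    rw [hS]
    have : (univ.filter (fun j : Fin (m + 3) => j.val < k + 1)) =
        (Finset.univ : Finset (Fin (k + 1))).map (Fin.castLEEmb (by omega)) := by
      ext j
      simp only [Finset.mem_filter, Finset.mem_univ, true_and, Finset.mem_map,
        Fin.castLEEmb_apply]
      constructor
      · intro h; exact ⟨⟨j.val, h⟩, by ext; simp⟩
      · rintro ⟨i, hi⟩
        rw [← hi]
        exact i.isLt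
    rw [this, Finset.card_map, Finset.card_univ, Fintype.card_fin]
  set g : (S → F) → ℝ := fun t => (A0 F κ)^[m + 1] zf (mulv (ext S t) (one F κ)) with hg
  have hq := q_pos (F := F)
  -- step 1 and 2
  have h12 : p F (m + 2) (m + 3) ≤ (∑ t : S → F, g t) / q F ^ (k + 1) := by
    have e1 : p F (m + 2) (m + 3) = (A0 F κ)^[m + 1] (A0 F κ zf) (one F κ) := by
      unfold p
      rw [show m + 2 = (m + 1) + 1 from rfl, Function.iterate_succ_apply]
    rw [e1]
    refine (A0_iter_mono (m + 1) (fun y => hI F κ S y) (one F κ)).trans (le_of_eq ?_)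
    have e2 : (Aop (ext S) zf : (Finset κ → F) → ℝ) =
        fun z => (∑ t : S → F, (fun z => zf (mulv (ext S t) z)) z) / q F ^ (k + 1) := by
      funext z
      unfold Aop q
      rw [Fintype.card_coe, hScard]
    rw [e2, A0_iter_sum]
    simp only [A0_iter_comm hB]
    rfl
  set P1 := p F (m + 1) (m + 2) with hP1
  set P0 := p F m (m + 2) with hP0
  set P3 := P0 + (P1 - P0) / q F with hP3
  have hP1nn : 0 ≤ P1 := (hP F (m + 1) (m + 2)).1
  set T3 : Finset (S → F) := (univ : Finset (S → F)).filter
      (fun t => (univ.filter (fun i => t i ≠ 0)).card = 3) with hT3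
  have hT3card : T3.card = (k + 1).choose 3 * (Fintype.card F - 1) ^ 3 := by
    rw [hT3, card_three, Fintype.card_coe, hScard]
  -- pointwise bounds
  have hbd3 : ∀ t ∈ T3, g t ≤ P3 := by
    intro t ht
    rw [hT3, Finset.mem_filter, Finset.card_eq_three] at ht
    obtain ⟨_, a, b, c, hab, hac, hbc, habc⟩ := ht
    have hmem : ∀ i : S, t i ≠ 0 ↔ i = a ∨ i = b ∨ i = c := by
      intro i
      have : i ∈ univ.filter (fun i => t i ≠ 0) ↔ i ∈ ({a, b, c} : Finset S) := by rw [habc]
      simpa using this
    have hext : ∀ i : S, ext S t i.1 = t i := by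
      intro i; unfold Run7.h282.PM.ext; simp
    apply three hR hG F h2 m (ext S t) a.1 b.1 c.1
    · intro h; exact hab (Subtype.ext h)
    · intro h; exact hac (Subtype.ext h)
    · intro h; exact hbc (Subtype.ext h)
    · rw [hext]; exact (hmem a).2 (Or.inl rfl)
    · rw [hext]; exact (hmem b).2 (Or.inr (Or.inl rfl))
    · rw [hext]; exact (hmem c).2 (Or.inr (Or.inr rfl))
    · intro j ja jb jc
      by_cases hj : j ∈ S
      · have := hext ⟨j, hj⟩
        simp only at this
        rw [this]
        by_contra hne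
        rcases (hmem ⟨j, hj⟩).1 hne with h | h | h
        · exact ja (congrArg Subtype.val h)
        · exact jb (congrArg Subtype.val h)
        · exact jc (congrArg Subtype.val h)
      · unfold Run7.h282.PM.ext; rw [dif_neg hj]
  have hbd1 : ∀ t : S → F, t ≠ 0 → g t ≤ P1 := by
    intro t ht
    obtain ⟨i, hi⟩ := Function.ne_iff.1 ht
    have hx : ext S t i.1 ≠ 0 := by
      unfold Run7.h282.PM.ext; simpa using hi
    apply hL F κ 1 (m + 2) (m + 1) (mulv (ext S t) (one F κ))
    · show Fintype.card (Fin (m + 3)) = _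
      rw [Fintype.card_fin]; omega
    · exact (hB F κ).2.1 0 _ _ (hB F κ).2.2.1
    · exact mulv_one_ne F κ _ i.1 hx
  have hbd0 : ∀ t : S → F, g t ≤ 1 := fun t => A0_iter_zf_le_one _ _
  -- the sum
  have hsum : ∑ t : S → F, g t ≤ 1 + (q F ^ (k + 1) - (T3.card : ℝ)) * P1 + (T3.card : ℝ) * P3 := by
    have h0T : (0 : S → F) ∉ T3 := by
      rw [hT3, Finset.mem_filter]; simp
    have hle : ∀ t : S → F, g t ≤ (if t = 0 then 1 else 0) + (P1 + (if t ∈ T3 then P3 - P1 else 0)) := by
      intro t
      by_cases ht0 : t = 0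
      · rw [if_pos ht0, if_neg (by rw [ht0]; exact h0T)]
        have := hbd0 t
        linarith
      · rw [if_neg ht0]
        by_cases h3 : t ∈ T3
        · rw [if_pos h3]; have := hbd3 t h3; linarith
        · rw [if_neg h3]; have := hbd1 t ht0; linarith
    refine (Finset.sum_le_sum (fun t _ => hle t)).trans (le_of_eq ?_)
    rw [Finset.sum_add_distrib, Finset.sum_add_distrib, Finset.sum_ite_eq' univ (0 : S → F),
      if_pos (Finset.mem_univ _), Finset.sum_const, ← Finset.sum_filter, Finset.sum_const]
    have hc : (univ : Finset (S → F)).card = (Fintype.card F) ^ (k + 1) := by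
      rw [Finset.card_univ, Fintype.card_fun, Fintype.card_coe, hScard]
    have hf : univ.filter (fun t => t ∈ T3) = T3 := by ext; simp
    rw [hc, hf, nsmul_eq_mul, nsmul_eq_mul, Nat.cast_pow]
    unfold q
    ring
  have hqk : 0 < q F ^ (k + 1) := pow_pos hq _
  have hcast : (T3.card : ℝ) = ((k + 1).choose 3 : ℝ) * (q F - 1) ^ 3 := by
    rw [hT3card]
    push_cast
    rw [Nat.cast_sub Fintype.card_pos]
    simp [q]
  have hw : w * q F ^ (k + 1) = (T3.card : ℝ) := by
    rw [hcast]
    show ((k + 1).choose 3 : ℝ) * (q F - 1) ^ 3 / q F ^ (k + 1) * q F ^ (k + 1) = _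
    field_simp
  refine h12.trans ?_
  rw [div_le_iff₀ hqk]
  refine hsum.trans (le_of_eq ?_)
  rw [← hw]
  field_simp

end Run7.h477.PM
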